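import Mathlib

set_option autoImplicit false

namespace Pool.Agent.Results.MP_5ca9a4_co.Counter

/-- no broken cycle `C - e` is monochromatic. -/
def StronglyWoody {V C : Type} (G : SimpleGraph V) (c : Sym2 V → C) : Prop :=
  ∀ (v : V) (p : G.Walk v v), p.IsCycle → ∀ e ∈ p.edges,
    ¬ ∃ a, ∀ e' ∈ p.edges, e' ≠ e → c e' = a

abbrev V := Fin 2 ⊕ Fin 10 ⊕ (Fin 10 × Fin 10 × Fin 2)

def adj : V → V → Prop
  | .inl _, .inr (.inl _) => True
  | .inr (.inl _), .inl _ => True
  | .inr (.inl w), .inr (.inr x) => w = x.1 ∨ w = x.2.1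
  | .inr (.inr x), .inr (.inl w) => w = x.1 ∨ w = x.2.1
  | _, _ => False

def G : SimpleGraph V where
  Adj := adj
  symm := ⟨by rintro (a | a | a) (b | b | b) h <;> exact h⟩
  loopless := ⟨by rintro (a | a | a) h <;> exact h⟩

def rk : V → ℕ
  | .inl a => a
  | .inr (.inl w) => 2 + w
  | .inr (.inr x) => 12 + 20 * x.1 + 2 * x.2.1 + x.2.2

lemma four {W C : Type} {H : SimpleGraph W} {c : Sym2 W → C} (h : StronglyWoody H c)
    {a b x d : W} (h1 : H.Adj a b) (h2 : H.Adj b x) (h3 : H.Adj x d) (h4 : H.Adj d a)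
    (n1 : a ≠ x) (n2 : b ≠ d) (e1 : c s(a, b) = c s(b, x)) (e2 : c s(x, d) = c s(b, x)) : False := by
  have := h1.ne
  have := h2.ne
  have := h3.ne
  have := h4.ne
  refine h a (.cons h1 (.cons h2 (.cons h3 (.cons h4 .nil)))) ?_ s(d, a) (by simp)
    ⟨c s(b, x), ?_⟩
  · simp [SimpleGraph.Walk.isCycle_def, SimpleGraph.Walk.isTrail_def]
    aesop
  · intro e he hne
    simp only [SimpleGraph.Walk.edges_cons, SimpleGraph.Walk.edges_nil, List.mem_cons,
      List.not_mem_nil, or_false] at he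
    rcases he with rfl | rfl | rfl | rfl
    · exact e1
    · rfl
    · exact e2
    · exact absurd rfl hne

theorem result : ∃ (W : Type) (_ : Finite W) (H : SimpleGraph W),
    (∃ r : W → ℕ, Function.Injective r ∧ ∀ v, {u | H.Adj u v ∧ r u < r v}.ncard ≤ 2) ∧
    ∀ c : Sym2 W → Fin 3, ¬ StronglyWoody H c := by
  refine ⟨V, inferInstance, G, ⟨rk, ?_, ?_⟩, fun c h => ?_⟩
  · rintro (a | a | ⟨a1, a2, a3⟩) (b | b | ⟨b1, b2, b3⟩) e <;> simp only [rk] at e <;>
      simp only [Sum.inl.injEq, Sum.inr.injEq, Prod.mk.injEq, Fin.ext_iff, reduceCtorEq] <;> omega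
  · have key : ∀ (v x y : V), (∀ u, G.Adj u v → rk u < rk v → u = x ∨ u = y) →
        {u | G.Adj u v ∧ rk u < rk v}.ncard ≤ 2 := by
      intro v x y hv
      refine (Set.ncard_le_ncard (t := {x, y}) (fun u hu => hv u hu.1 hu.2)).trans ?_
      exact (Set.ncard_insert_le _ _).trans (by simp)
    rintro (a | a | a)
    · refine key _ (.inl 0) (.inl 0) ?_
      rintro (b | b | b) h1 h2
      · exact h1.elim
      · simp only [rk] at h2; omega
      · exact h1.elim
    · refine key _ (.inl 0) (.inl 1) ?_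
      rintro (b | b | b) h1 h2
      · fin_cases b <;> simp
      · exact h1.elim
      · simp only [rk] at h2; omega
    · refine key _ (.inr (.inl a.1)) (.inr (.inl a.2.1)) ?_
      rintro (b | b | b) h1 h2
      · exact h1.elim
      · rcases h1 with h1 | h1 <;> simp [h1]
      · exact h1.elim
  · obtain ⟨w, w', hne, e⟩ := Fintype.exists_ne_map_eq_of_card_lt
      (fun w : Fin 10 => (c s(Sum.inl 0, Sum.inr (Sum.inl w)), c s(Sum.inl 1, Sum.inr (Sum.inl w))))
      (by simp)
    simp only [Prod.mk.injEq] at e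
    have hw : (Sum.inr (Sum.inl w) : V) ≠ Sum.inr (Sum.inl w') := by simpa using hne
    have ab : c s(Sum.inl 0, Sum.inr (Sum.inl w)) ≠ c s(Sum.inl 1, Sum.inr (Sum.inl w)) := by
      intro e'
      refine four h (a := .inl 1) (b := .inr (.inl w)) (x := .inl 0) (d := .inr (.inl w'))
        trivial trivial trivial trivial (by simp) hw ?_ ?_
      · rw [← e', Sym2.eq_swap]
      · rw [← e.1, Sym2.eq_swap]
    have k1 : ∀ (i j : Fin 2), c s(Sum.inr (Sum.inr (w, w', i)), Sum.inr (Sum.inl w)) ≠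
        c s(Sum.inl j, Sum.inr (Sum.inl w)) := by
      intro i j e'
      refine four h (a := .inr (.inr (w, w', i))) (b := .inr (.inl w)) (x := .inl j)
        (d := .inr (.inl w')) (Or.inl rfl) trivial trivial (Or.inr rfl) (by simp) hw ?_ ?_
      · rw [e', Sym2.eq_swap]
      · rw [Sym2.eq_swap (a := Sum.inr (Sum.inl w))]
        fin_cases j
        · exact e.1.symm
        · exact e.2.symm
    have k2 : ∀ (i j : Fin 2), c s(Sum.inr (Sum.inr (w, w', i)), Sum.inr (Sum.inl w')) ≠
        c s(Sum.inl j, Sum.inr (Sum.inl w)) := by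
      intro i j e'
      have e'' : c s(Sum.inl j, Sum.inr (Sum.inl w)) = c s(Sum.inl j, Sum.inr (Sum.inl w')) := by
        fin_cases j
        · exact e.1
        · exact e.2
      refine four h (a := .inr (.inr (w, w', i))) (b := .inr (.inl w')) (x := .inl j)
        (d := .inr (.inl w)) (Or.inr rfl) trivial trivial (Or.inl rfl) (by simp) hw.symm ?_ ?_
      · rw [e', e'', Sym2.eq_swap]
      · rw [e'', Sym2.eq_swap]
    have a1 := k1 0 0
    have a2 := k1 0 1
    have a3 := k1 1 0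
    have a4 := k1 1 1
    have a5 := k2 1 0
    have a6 := k2 1 1
    refine four h (a := .inr (.inr (w, w', 0))) (b := .inr (.inl w)) (x := .inr (.inr (w, w', 1)))
      (d := .inr (.inl w')) (Or.inl rfl) (Or.inl rfl) (Or.inr rfl) (Or.inr rfl) (by simp) hw ?_ ?_
    · rw [Sym2.eq_swap (a := Sum.inr (Sum.inl w))]
      simp only [ne_eq, Fin.ext_iff] at *
      omega
    · rw [Sym2.eq_swap (a := Sum.inr (Sum.inl w))]
      simp only [ne_eq, Fin.ext_iff] at *
      omega

end Pool.Agent.Results.MP_5ca9a4_co.Counter
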